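import Pool.Agent.Helper72.SetMapping

/-!
# The relation `(λ⁺, λ⁺, λ) → (cf λ)⁺` can fail for every singular `λ`, also under GCH

First part: for every singular cardinal `λ` with `2 ^ κ ≤ cf λ` for all `κ < cf λ` (for example
under GCH, or if `cf λ = ω`) there is a notion of forcing which adds no new functions defined on
`λ` (so the cardinals up to `λ⁺`, their cofinalities and the powers of the cardinals below `λ` do
not change), which forces `2 ^ λ = λ⁺`, and which forces that the relation
`(λ⁺, λ⁺, λ) → (cf λ)⁺` fails.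

Second part: the relation fails outright if moreover `2 ^ λ = λ⁺` and there is a subadditive
locally small function from the pairs of elements of `λ⁺` to `cf λ` (such functions exist for
example if `λ` satisfies Jensen's square principle).
-/

set_option autoImplicit false

namespace Pool.Agent.Results.MP_38e082_lc.ForcedFailure

open Cardinal Ordinal Pool.Agent.Helper72.SetMap

universe u

/-- Some notion of forcing `P` adds no function defined on `λ` with values in a ground model set,
and all conditions force `2 ^ λ ≤ λ⁺` and the failure of `(λ⁺, λ⁺, λ) → (cf λ)⁺`. -/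
def FailureForced (lam : Cardinal.{u}) : Prop :=
  ∃ (P : Type u) (_ : Preorder P), Nonempty P ∧ NoNewFunctions P lam.ord.ToType ∧
    ∀ p : P, p ∈ PowLe P lam.ord.ToType (Order.succ lam).ord.ToType ∧
      p ∈ NotArrow P (Order.succ lam).ord.ToType (Order.succ lam).ord.ToType
        lam.ord.ToType (Order.succ lam.ord.cof).ord.ToType

theorem cof_aleph_omega : (ℵ_ (ω : Ordinal.{u})).ord.cof = ℵ₀ := by
  rw [ord_aleph, cof_omega isSuccLimit_omega0, cof_omega0]

/-- **Main theorem.** -/
theorem result :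
    (∀ lam : Cardinal.{u}, ℵ₀ ≤ lam → lam.ord.cof < lam →
      (∀ κ < lam.ord.cof, 2 ^ κ ≤ lam.ord.cof) → FailureForced lam) ∧
    (∀ lam : Cardinal.{u}, ℵ₀ < lam → lam.ord.cof = ℵ₀ → FailureForced lam) ∧
    FailureForced (ℵ_ (ω : Ordinal.{u})) ∧
    (∀ lam : Cardinal.{u}, ℵ₀ ≤ lam → lam.ord.cof < lam →
      (∀ κ < lam.ord.cof, 2 ^ κ ≤ lam.ord.cof) → 2 ^ lam = Order.succ lam →
      HasSubadditive lam →
      ¬ Arrow (Order.succ lam) (Order.succ lam) lam (Order.succ lam.ord.cof)) := by
  have h1 : ∀ lam : Cardinal.{u}, ℵ₀ ≤ lam → lam.ord.cof < lam →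
      (∀ κ < lam.ord.cof, 2 ^ κ ≤ lam.ord.cof) → FailureForced lam := by
    intro lam h0 h1 h2
    obtain ⟨P, hP, hne, h3, h4, h5⟩ := exists_forcing lam h0 h1 h2
    exact ⟨P, hP, hne, h3, fun p => ⟨h4 p, h5 p⟩⟩
  have h2 : ∀ lam : Cardinal.{u}, ℵ₀ < lam → lam.ord.cof = ℵ₀ → FailureForced lam :=
    fun lam h0 h => h1 lam h0.le (h ▸ h0) (pow_le_of_cof h)
  refine ⟨h1, h2, h2 _ ?_ cof_aleph_omega, fun lam h0 h1 h2 h3 h4 => not_arrow lam h0 h1 h2 h3 h4⟩
  rw [← aleph_zero]
  exact aleph_lt_aleph.2 omega0_pos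

end Pool.Agent.Results.MP_38e082_lc.ForcedFailure
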